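import Mathlib

/-! Topological Ramsey spaces (Todorcevic's axioms A.1-A.4), their topologies and ideal,
Borel reducibility and the spectrum of an ideal. -/

set_option autoImplicit false
set_option warn.classDefReducibility false

open Set Filter

namespace Pool.Agent.MP_8067b8_lc.H6

/-- The data of a triple: the order, the approximation maps, the finitary order. -/
structure Pre (R AR : Type) where
  le : R → R → Prop
  r : ℕ → R → AR
  lef : AR → AR → Prop

namespace Pre

variable {R AR : Type} (T : Pre R AR)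

/-- the cube `[a, A]` -/
def cube (a : AR) (A : R) : Set R := {B | T.le B A ∧ ∃ n, T.r n B = a}

/-- `a` is an initial segment of `b` -/
def ini (a b : AR) : Prop := ∃ A n m, n ≤ m ∧ T.r n A = a ∧ T.r m A = b

/-- the depth of `a` in `B` is finite and equal to `n` -/
def Depth (B : R) (a : AR) (n : ℕ) : Prop := IsLeast {m | T.lef a (T.r m B)} n

/-- the product topology on sequences of approximations, approximations being discrete -/
def seqTop (AR : Type) : TopologicalSpace (ℕ → AR) :=
  @Pi.topologicalSpace ℕ (fun _ => AR) fun _ => ⊥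

/-- the Polish topology -/
def pol : TopologicalSpace R := TopologicalSpace.induced (fun A n => T.r n A) (seqTop AR)

/-- the Ellentuck topology -/
def ell : TopologicalSpace R := TopologicalSpace.generateFrom {U | ∃ a A, U = T.cube a A}

/-- the Borel sets of the Polish topology -/
def bor : MeasurableSpace R := @borel R T.pol

/-- the ideal of Ellentuck-meager sets -/
def idl : Set (Set R) := {S | @IsMeagre R T.ell S}

/-- Todorcevic's axioms A.1-A.4 and closedness; the approximations form a countable set. -/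
structure IsTRS : Prop where
  cnt : Countable AR
  ne : Nonempty R
  le_refl : ∀ A, T.le A A
  le_trans : ∀ A B C, T.le A B → T.le B C → T.le A C
  surj : ∀ a, ∃ n A, T.r n A = a
  a11 : ∀ A B, T.r 0 A = T.r 0 B
  a12 : ∀ A B, A ≠ B → ∃ n, T.r n A ≠ T.r n B
  a13 : ∀ n m A B, T.r n A = T.r m B → n = m ∧ ∀ k < n, T.r k A = T.r k B
  lef_refl : ∀ a, T.lef a a
  lef_trans : ∀ a b c, T.lef a b → T.lef b c → T.lef a c
  a21 : ∀ b, {a | T.lef a b}.Finite
  a22 : ∀ A B, T.le A B ↔ ∀ n, ∃ m, T.lef (T.r n A) (T.r m B)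
  a23 : ∀ a b c, T.ini a b → T.lef b c → ∃ d, T.ini d c ∧ T.lef a d
  a31 : ∀ a B n, T.Depth B a n → ∀ A ∈ T.cube (T.r n B) B, (T.cube a A).Nonempty
  a32 : ∀ a A B n, T.le A B → (T.cube a A).Nonempty → T.Depth B a n →
    ∃ A' ∈ T.cube (T.r n B) B, (T.cube a A').Nonempty ∧ T.cube a A' ⊆ T.cube a A
  a4 : ∀ k C B n, T.Depth B (T.r k C) n → ∀ O : Set AR, ∃ A ∈ T.cube (T.r n B) B,
    T.r (k + 1) '' T.cube (T.r k C) A ⊆ O ∨ T.r (k + 1) '' T.cube (T.r k C) A ⊆ Oᶜ
  closed : @IsClosed (ℕ → AR) (seqTop AR) (range fun A n => T.r n A)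

end Pre

section

variable {X Y : Type} [MeasurableSpace X] [MeasurableSpace Y]

/-- Borel reducibility -/
def Red (E : X → X → Prop) (F : Y → Y → Prop) : Prop :=
  ∃ f : X → Y, Measurable f ∧ ∀ x x', E x x' ↔ F (f x) (f x')

/-- restriction of a relation to a subset -/
def res (E : X → X → Prop) (C : Set X) : C → C → Prop := fun x y => E x y

/-- `E` is in the spectrum of the ideal `I` -/
def InSpec (I : Set (Set X)) (E : X → X → Prop) : Prop :=
  ∀ B, MeasurableSet B → B ∉ I → ∃ C, MeasurableSet C ∧ C ⊆ B ∧ C ∉ I ∧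
    Red (res E C) E ∧ Red E (res E C)

end

end Pool.Agent.MP_8067b8_lc.H6
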